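import Pool.Agent.H531.IX.Fin2
import Pool.Agent.H531.IX.CNT
import Pool.Agent.H531.IX.CHN
import Pool.Agent.H531.IX.REG2
import Pool.Agent.H531.IX.EBU
import Pool.Agent.H531.IX.NEB

set_option autoImplicit false

/-!
# Splitting integers into twin-prime and prime-indexed twin-prime indices: the number of the decompositions in the
random sieve model

For every prime `q` a residue class `a q` modulo `q` is drawn uniformly and independently. The random primes are the
integers `v ≥ 3` which are, for all primes `q ≤ zBFT v`, not in the class `0` modulo `q` if `q ≤ (log v) ^ c`, and not in the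
class `a q` modulo `q` if `q > (log v) ^ c`. This is the model of Banks, Ford and Tao (*Large prime gaps and
probabilistic models*) in which the small primes sieve out the class `0` as they do for the true primes, `c > 1` is
arbitrary. `r_m` is the `m`-th random prime.

The theorem: almost surely, for all real `0 < δ < 1` the number of the `m` with `δ n ≤ m < n` for which `r_{n-m} + 2` and
`r_{r_m} + 2` are random primes is asymptotic to `4 C₂² (1 - δ) n / (log n) ^ 2` for `n → ∞` (through all integers), where
`C₂` is the twin prime constant. This is what one expects for the true primes: for each `m` the two conditions have the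
probabilities `2 C₂ / log n` and `2 C₂ / log n`.

The number `r_{r_m}` has the index `r_m`, and the condition on `n - m` is a condition on the index `m` of `r_m`: two nested
conditions on indices. The proof uses the index law `Pool.Agent.H531.IX.law`: for the random primes `p` in `(X, X2]`,
`X2 ≤ 2X`, the proportion of those (with any local conditions `p + h` random prime, `h ∈ H`) the index of which lies in a
set `T` that is determined by the classes modulo the primes up to the sieving limit of `X` is the density of `T` in short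
intervals, up to `1 ± ε` and `X ^ 0.99`, with an exceptional probability `exp (-X ^ 0.4)`. Here `T` is the set of the `r_m`
such that `r_{n-m} + 2` is a random prime; it is regular in short intervals by the asymptotic formula for twins in short
intervals.
-/

open MeasureTheory ProbabilityTheory Filter Topology

namespace Pool.Agent.Results.MP_04e9b2_nt.SuperTwinIndexAsymptotics

/-- `V m = ∏ (1 - 1 / q)` over the primes `q ≤ m` -/
noncomputable def V (m : ℕ) : ℝ := ∏ q ∈ (Finset.range (m + 1)).filter Nat.Prime, (1 - 1 / (q : ℝ))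

/-- the classes `a q` are independent, and `a q` is uniform on `0, …, q - 1` for every prime `q` -/
structure Model {Ω : Type} [MeasurableSpace Ω] (P : Measure Ω) (a : ℕ → Ω → ℕ) : Prop where
  measurable : ∀ q, Measurable (a q)
  independent : iIndepFun a P
  uniform : ∀ q, q.Prime → ∀ r < q, P.real {ω | a q ω = r} = 1 / q

/-- the sieving limit of Banks, Ford and Tao: the largest `m` with `∏_{q ≤ m} (1 - 1 / q)⁻¹ ≤ log n` -/
noncomputable def zBFT (n : ℕ) : ℕ := sSup {m : ℕ | (V m)⁻¹ ≤ Real.log n}

open Classical in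
/-- the set of the random primes of a sample -/
def R {Ω : Type} (c : ℝ) (a : ℕ → Ω → ℕ) (ω : Ω) : Set ℕ :=
  {v | 3 ≤ v ∧ ∀ q ≤ zBFT v, q.Prime → v % q ≠ if (q : ℝ) ≤ Real.log v ^ c then 0 else a q ω}

/-- the `m`-th element of `A` in increasing order, `m ≥ 1` -/
noncomputable def nthEl (A : Set ℕ) (m : ℕ) : ℕ := Nat.nth (fun u => u ∈ A) (m - 1)

/-- the number of the decompositions `n = k + m`, `k ≥ 1`, `m ≥ 1`, `m ≥ δ n`, with `r_k + 2` and `r_{r_m} + 2` in `A`, `r_j` the
`j`-th element of `A` -/
noncomputable def number (A : Set ℕ) (δ : ℝ) (n : ℕ) : ℕ :=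
  {m : ℕ | 1 ≤ m ∧ δ * n ≤ m ∧ m < n ∧ nthEl A (n - m) + 2 ∈ A ∧ nthEl A (nthEl A m) + 2 ∈ A}.ncard

/-- the partial products of the twin prime constant -/
noncomputable def partialTwin (x : ℕ) : ℝ :=
  ∏ p ∈ (Finset.range (x + 1)).filter (fun p => p.Prime ∧ p ≠ 2), (1 - 1 / ((p : ℝ) - 1) ^ 2)

theorem result :
    (∃ (Ω : Type) (_ : MeasurableSpace Ω) (P : Measure Ω) (a : ℕ → Ω → ℕ), Model P a) ∧
    ∃ C₂ : ℝ, 1 / 2 ≤ C₂ ∧ Tendsto partialTwin atTop (𝓝 C₂) ∧ ∀ c : ℝ, 1 < c →
      ∀ (Ω : Type) [MeasurableSpace Ω] (P : Measure Ω) (a : ℕ → Ω → ℕ), Model P a →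
        ∀ᵐ ω ∂P, (R c a ω).Infinite ∧ ∀ δ : ℝ, 0 < δ → δ < 1 →
          Tendsto (fun n : ℕ => (number (R c a ω) δ n : ℝ) * Real.log n ^ 2 / n) atTop (𝓝 (4 * C₂ ^ 2 * (1 - δ))) := by
  classical
  obtain ⟨κ, hκ, hlim⟩ := Pool.Agent.T2H32.GB.C2_lim id monotone_id
  refine ⟨?_, κ, hκ, hlim, ?_⟩
  · obtain ⟨Ω, i, P, a, h⟩ := Pool.Agent.T2H32.BF.exists_model
    exact ⟨Ω, i, P, a, h.measurable, h.independent, h.uniform⟩
  · intro c hc Ω _ P a hmod
    have h : Pool.Agent.T2H32.BF.Model P a := ⟨hmod.measurable, hmod.independent, hmod.uniform⟩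
    have e : ∀ ω, Pool.Agent.H531.IX.RS Pool.Agent.T2H32.BF.z0 (Pool.Agent.H559.HY.WW c) (fun q => a q ω) = R c a ω := by
      intro ω
      ext v
      refine and_congr_right fun hv => forall_congr' fun q => forall_congr' fun hq => forall_congr' fun hp => ?_
      have h1 : q ≤ Pool.Agent.H559.HY.WW c v ↔ (q : ℝ) ≤ Real.log v ^ c := by
        unfold Pool.Agent.H559.HY.WW
        exact Nat.le_floor_iff (Real.rpow_nonneg (Real.log_natCast_nonneg v) c)
      by_cases h2 : q ≤ Pool.Agent.H559.HY.WW c v
      · rw [if_pos h2, if_pos (h1.1 h2)]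
      · rw [if_neg h2, if_neg (fun h3 => h2 (h1.2 h3))]
    filter_upwards [Pool.Agent.H531.IX.fin2 Pool.Agent.H531.IX.cnt Pool.Agent.H531.IX.chn Pool.Agent.H531.IX.reg2
      Pool.Agent.H531.IX.ebu Pool.Agent.H531.IX.neb c κ hc (by linarith) hlim Ω P a h,
      Pool.Agent.H531.IX.ae_inf Pool.Agent.H531.IX.cnt c hc Ω P a h] with ω hω hinf
    rw [e] at hω hinf
    exact ⟨hinf, hω⟩

end Pool.Agent.Results.MP_04e9b2_nt.SuperTwinIndexAsymptotics
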